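import Mathlib

namespace Pool.Agent.Results.MP_6d480e_an.Prime

open Finset

/-- `E` carries a measure with unimodular coefficients and `μ * μ~ = |E| δ_0` -/
def Extreme {p : ℕ} (E : Finset (ZMod p)) : Prop :=
  ∃ c : ZMod p → ℂ, (∀ x ∈ E, ‖c x‖ = 1) ∧ ∀ g : ZMod p,
    ∑ x ∈ E, ∑ y ∈ E, (if x - y = g then c x * (starRingEnd ℂ) (c y) else 0) =
      if g = 0 then (E.card : ℂ) else 0

def Equivalent {p : ℕ} (E F : Finset (ZMod p)) : Prop :=
  ∃ a b : ZMod p, a ≠ 0 ∧ F = E.image fun x => a * x + b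

lemma extreme_of {p : ℕ} (E N : Finset (ZMod p))
    (h : ∀ g : ZMod p, ∑ x ∈ E, ∑ y ∈ E, (if x - y = g then
      (if x ∈ N then (-1 : ℤ) else 1) * (if y ∈ N then (-1 : ℤ) else 1) else 0) =
      if g = 0 then (E.card : ℤ) else 0) : Extreme E := by
  refine ⟨fun x => if x ∈ N then -1 else 1, fun x _ => by by_cases h : x ∈ N <;> simp [h], fun g => ?_⟩
  have := congrArg (Int.cast : ℤ → ℂ) (h g)
  push_cast at this
  rw [← this]
  refine sum_congr rfl fun x _ => sum_congr rfl fun y _ => ?_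
  by_cases h1 : x ∈ N <;> by_cases h2 : y ∈ N <;> simp [h1, h2]

def E1 : Finset (ZMod 71) := {11, 13, 14, 17, 18, 19, 24, 26, 27, 31, 32, 36, 38, 41, 46, 48, 49, 55, 59, 62, 63, 64, 65, 66, 70}
def N1 : Finset (ZMod 71) := {13, 14, 17, 31, 41, 46, 63, 65, 66, 70}
def E2 : Finset (ZMod 71) := {9, 11, 12, 14, 16, 17, 26, 27, 36, 38, 42, 45, 46, 48, 51, 55, 56, 59, 60, 62, 64, 66, 67, 68, 70}
def N2 : Finset (ZMod 71) := {14, 17, 27, 36, 38, 46, 48, 64, 66, 70}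

theorem result : ∃ (p : ℕ) (n : ℕ) (E F : Finset (ZMod p)), p.Prime ∧ 1 < n ∧ n < p ∧
    E.card = n ∧ F.card = n ∧ Extreme E ∧ Extreme F ∧ ¬ Equivalent E F := by
  refine ⟨71, 25, E1, E2, by norm_num, by norm_num, by norm_num, by decide +kernel,
    by decide +kernel, extreme_of E1 N1 (by decide +kernel), extreme_of E2 N2 (by decide +kernel),
    ?_⟩
  rintro ⟨a, b, ha, h⟩
  have : ∀ a b : ZMod 71, a ≠ 0 → ∃ x ∈ E1, a * x + b ∉ E2 := by decide +kernel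
  obtain ⟨x, hx, hn⟩ := this a b ha
  exact hn (h ▸ mem_image_of_mem _ hx)

end Pool.Agent.Results.MP_6d480e_an.Prime
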